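import Mathlib

set_option autoImplicit false

namespace Pool.Agent.Results.MP_76d2cf_co.Disproof

open Set

/-- A rational convex polytope in `ℝ^d`: the convex hull of finitely many rational points. -/
def IsRationalPolytope {d : ℕ} (P : Set (Fin d → ℝ)) : Prop :=
  ∃ V : Finset (Fin d → ℚ), P = convexHull ℝ ((fun v i => ((v i : ℚ) : ℝ)) '' (V : Set (Fin d → ℚ)))

/-- A rational hyperplane in `ℝ^d`: the solution set of one equation `∑ aᵢ xᵢ = b` with
rational coefficients, not all `aᵢ` zero. -/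
def IsRationalHyperplane {d : ℕ} (h : Set (Fin d → ℝ)) : Prop :=
  ∃ (a : Fin d → ℚ) (b : ℚ), a ≠ 0 ∧ h = {x | ∑ i, ((a i : ℚ) : ℝ) * x i = ((b : ℚ) : ℝ)}

/-- The dimension of a subset of `ℝ^d`. -/
noncomputable def dim {d : ℕ} (P : Set (Fin d → ℝ)) : ℕ := Module.finrank ℝ (vectorSpan ℝ P)

/-- `(P, H)` is an inside-out polytope: `P` is a rational polytope of dimension at least one, `H` is a
finite set of rational hyperplanes, no member of `H` contains `P`, and every nonempty intersection of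
members of `H` that meets `P` also meets the relative interior of `P`. -/
structure IsInsideOut {d : ℕ} (P : Set (Fin d → ℝ)) (H : Set (Set (Fin d → ℝ))) : Prop where
  polytope : IsRationalPolytope P
  dim_pos : 1 ≤ dim P
  finite : H.Finite
  rational : ∀ h ∈ H, IsRationalHyperplane h
  not_subset : ∀ h ∈ H, ¬ P ⊆ h
  transverse : ∀ S ⊆ H, S.Nonempty → (P ∩ ⋂₀ S).Nonempty → (intrinsicInterior ℝ P ∩ ⋂₀ S).Nonempty

/-- The points of `((1/t) ℤ)^d`. -/
def grid (d t : ℕ) : Set (Fin d → ℝ) := {x | ∀ i, ∃ m : ℤ, x i = (m : ℝ) / (t : ℝ)}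

/-- The number of points of `((1/t) ℤ)^d` in the relative interior of `P` outside all members of `H`. -/
noncomputable def Eopen {d : ℕ} (P : Set (Fin d → ℝ)) (H : Set (Set (Fin d → ℝ))) (t : ℕ) : ℕ :=
  Set.ncard ((intrinsicInterior ℝ P \ ⋃₀ H) ∩ grid d t)

/-- The number of points of `((1/t) ℤ)^d` in the relative interior of `P`. -/
noncomputable def Ew {d : ℕ} (P : Set (Fin d → ℝ)) (t : ℕ) : ℕ :=
  Set.ncard (intrinsicInterior ℝ P ∩ grid d t)

/-- `c 0, …, c δ` are the coefficient functions of the quasipolynomial `E` of degree at most `δ`: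
each is periodic on `ℤ`, and `E t = ∑_{k ≤ δ} c k t * t ^ k` for all `t ≥ 1`. -/
structure IsCoeff (E : ℕ → ℕ) (δ : ℕ) (c : ℕ → ℤ → ℝ) : Prop where
  periodic : ∀ k ≤ δ, ∃ p : ℕ, 0 < p ∧ ∀ t : ℤ, c k (t + p) = c k t
  eq : ∀ t : ℕ, 1 ≤ t → (E t : ℝ) = ∑ k ∈ Finset.range (δ + 1), c k (t : ℤ) * (t : ℝ) ^ k

/-- The minimal period of a function on `ℤ`. -/
noncomputable def minPeriod (f : ℤ → ℝ) : ℕ := sInf {p : ℕ | 0 < p ∧ ∀ t : ℤ, f (t + p) = f t}

/-- The triangle with vertices `(-2, 0)`, `(2, 0)`, `(0, 1/2)`. -/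
def P0 : Set (Fin 2 → ℝ) := convexHull ℝ {![-2, 0], ![2, 0], ![0, 1/2]}

/-- The arrangement consisting of the single line `x₀ = 0`. -/
def H0 : Set (Set (Fin 2 → ℝ)) := {{x | x 0 = 0}}

/-! ### Periods and uniqueness of coefficients -/

lemma minPeriod_const (a : ℝ) : minPeriod (fun _ => a) = 1 := by
  unfold minPeriod
  have h1 : (1 : ℕ) ∈ {p : ℕ | 0 < p ∧ ∀ t : ℤ, (fun _ : ℤ => a) (t + p) = (fun _ : ℤ => a) t} := by
    simp
  have h2 := Nat.sInf_le h1
  have h3 := (Nat.sInf_mem ⟨1, h1⟩).1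
  omega

lemma minPeriod_two (f : ℤ → ℝ) (hf : ∀ t, f (t + 2) = f t) (h01 : f 1 ≠ f 0) : minPeriod f = 2 := by
  unfold minPeriod
  have h1 : (2 : ℕ) ∈ {p : ℕ | 0 < p ∧ ∀ t : ℤ, f (t + p) = f t} := by
    refine ⟨by norm_num, fun t => ?_⟩
    simpa using hf t
  have h2 := Nat.sInf_le h1
  have h3 := Nat.sInf_mem ⟨2, h1⟩
  rcases h3 with ⟨h3, h4⟩
  by_contra hne
  have h5 : sInf {p : ℕ | 0 < p ∧ ∀ t : ℤ, f (t + p) = f t} = 1 := by omega
  rw [h5] at h4
  have := h4 0
  simp at this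
  exact h01 this

lemma periodic_mul (f : ℤ → ℝ) (p : ℕ) (h : ∀ t : ℤ, f (t + p) = f t) (n : ℕ) (t : ℤ) :
    f (t + (n : ℤ) * p) = f t := by
  induction n with
  | zero => simp
  | succ n ih =>
    have := h (t + (n : ℤ) * p)
    rw [← ih, ← this]
    congr 1
    push_cast
    ring

lemma quad_zero {a b c x N : ℝ} (hN : N ≠ 0) (h0 : c + b * x + a * x ^ 2 = 0)
    (h1 : c + b * (x + N) + a * (x + N) ^ 2 = 0)
    (h2 : c + b * (x + 2 * N) + a * (x + 2 * N) ^ 2 = 0) : a = 0 ∧ b = 0 ∧ c = 0 := by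
  have ha : a = 0 := by
    have : a * (2 * N ^ 2) = 0 := by linear_combination h0 - 2 * h1 + h2
    rcases mul_eq_zero.1 this with h | h
    · exact h
    · exact absurd h (by positivity)
  subst ha
  have hb : b = 0 := by
    have : b * N = 0 := by linear_combination h1 - h0
    rcases mul_eq_zero.1 this with h | h
    · exact h
    · exact absurd h hN
  subst hb
  refine ⟨rfl, rfl, ?_⟩
  linear_combination h0

/-- The coefficient functions of a quasipolynomial of degree at most two are unique. -/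
lemma coeff_unique {E : ℕ → ℕ} {c c' : ℕ → ℤ → ℝ} (h : IsCoeff E 2 c) (h' : IsCoeff E 2 c') (s : ℤ) :
    c 0 s = c' 0 s ∧ c 1 s = c' 1 s ∧ c 2 s = c' 2 s := by
  obtain ⟨p0, hp0, q0⟩ := h.periodic 0 (by norm_num)
  obtain ⟨p1, hp1, q1⟩ := h.periodic 1 (by norm_num)
  obtain ⟨p2, hp2, q2⟩ := h.periodic 2 (by norm_num)
  obtain ⟨p0', hp0', q0'⟩ := h'.periodic 0 (by norm_num)
  obtain ⟨p1', hp1', q1'⟩ := h'.periodic 1 (by norm_num)
  obtain ⟨p2', hp2', q2'⟩ := h'.periodic 2 (by norm_num)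
  set N : ℕ := p0 * p1 * p2 * p0' * p1' * p2' with hN
  have hNpos : 0 < N := by positivity
  have per : ∀ (f : ℤ → ℝ) (p m : ℕ), (∀ t : ℤ, f (t + p) = f t) → N = m * p →
      ∀ (j : ℕ) (t : ℤ), f (t + (j : ℤ) * N) = f t := by
    intro f p m hf hm j t
    have := periodic_mul f p hf (j * m) t
    rw [← this]
    congr 1
    rw [hm]
    push_cast
    ring
  have c0 := per (c 0) p0 (p1 * p2 * p0' * p1' * p2') q0 (by rw [hN]; ring)
  have c1 := per (c 1) p1 (p0 * p2 * p0' * p1' * p2') q1 (by rw [hN]; ring)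
  have c2 := per (c 2) p2 (p0 * p1 * p0' * p1' * p2') q2 (by rw [hN]; ring)
  have c0' := per (c' 0) p0' (p0 * p1 * p2 * p1' * p2') q0' (by rw [hN]; ring)
  have c1' := per (c' 1) p1' (p0 * p1 * p2 * p0' * p2') q1' (by rw [hN]; ring)
  have c2' := per (c' 2) p2' (p0 * p1 * p2 * p0' * p1') q2' hN
  have key : ∀ j : ℕ, s.natAbs + 1 ≤ j →
      (c 0 s - c' 0 s) + (c 1 s - c' 1 s) * ((s : ℝ) + j * N)
        + (c 2 s - c' 2 s) * ((s : ℝ) + j * N) ^ 2 = 0 := by
    intro j hj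
    have hpos : 1 ≤ s + (j : ℤ) * N := by
      have h1 : (s.natAbs : ℤ) + 1 ≤ j := by exact_mod_cast hj
      have h2 : -s ≤ (s.natAbs : ℤ) := by omega
      have h3 : (1 : ℤ) ≤ N := by exact_mod_cast hNpos
      nlinarith
    obtain ⟨n, hn⟩ := Int.eq_ofNat_of_zero_le (show 0 ≤ s + (j : ℤ) * N by omega)
    have hn1 : 1 ≤ n := by
      rw [hn] at hpos
      exact_mod_cast hpos
    have e1 := h.eq n hn1
    have e2 := h'.eq n hn1
    simp only [Finset.sum_range_succ, Finset.sum_range_zero, zero_add, pow_zero, mul_one, pow_one,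
      Nat.reduceAdd] at e1 e2
    have hnr : (n : ℝ) = (s : ℝ) + j * N := by
      have : ((s + (j : ℤ) * N : ℤ) : ℝ) = (n : ℝ) := by rw [hn]; simp
      rw [← this]
      push_cast
      ring
    have hnz : (n : ℤ) = s + (j : ℤ) * N := by rw [hn]
    rw [hnz, c0, c1, c2, hnr] at e1
    rw [hnz, c0', c1', c2', hnr] at e2
    linear_combination e2 - e1
  set j0 : ℕ := s.natAbs + 1
  have k0 := key j0 (by omega)
  have k1 := key (j0 + 1) (by omega)
  have k2 := key (j0 + 2) (by omega)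
  have hNr : (N : ℝ) ≠ 0 := by positivity
  have := quad_zero (a := c 2 s - c' 2 s) (b := c 1 s - c' 1 s) (c := c 0 s - c' 0 s)
    (x := (s : ℝ) + j0 * N) (N := N) hNr k0
    (by push_cast at k1; linear_combination k1) (by push_cast at k2; linear_combination k2)
  refine ⟨by linarith [this.2.2], by linarith [this.2.1], by linarith [this.1]⟩

/-! ### The example -/

/-- The vertices `(-2, 0)`, `(2, 0)`, `(0, 1/2)`. -/
def verts : Finset (Fin 2 → ℚ) := {![-2, 0], ![2, 0], ![0, 1/2]}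

/-- The triangle. -/
def T : Set (Fin 2 → ℝ) := {x | 0 ≤ x 1 ∧ x 0 + 4 * x 1 ≤ 2 ∧ -x 0 + 4 * x 1 ≤ 2}

/-- The hyperplane `x₀ = 0`. -/
def h0 : Set (Fin 2 → ℝ) := {x | x 0 = 0}

lemma T_convex : Convex ℝ T := by
  rintro x ⟨h1, h2, h3⟩ y ⟨g1, g2, g3⟩ a b ha hb hab
  refine ⟨?_, ?_, ?_⟩ <;> simp only [Pi.add_apply, Pi.smul_apply, smul_eq_mul] <;> nlinarith

lemma T_eq' : T = P0 := by
  unfold P0
  apply Set.Subset.antisymm
  · rintro x ⟨h1, h2, h3⟩
    have hx : x = ∑ i : Fin 3, (![(1 - 2 * x 1) / 2 - x 0 / 4, (1 - 2 * x 1) / 2 + x 0 / 4, 2 * x 1] i)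
        • ((![![-2, 0], ![2, 0], ![0, 1/2]] : Fin 3 → (Fin 2 → ℝ)) i) := by
      rw [Fin.sum_univ_three]
      ext i
      fin_cases i
      · simp; ring
      · simp; ring
    rw [hx]
    apply (convex_convexHull ℝ _).sum_mem
    · intro i _
      fin_cases i
      · simp; linarith
      · simp; linarith
      · simpa using h1
    · rw [Fin.sum_univ_three]
      simp
    · intro i _
      apply subset_convexHull
      fin_cases i <;> simp
  · apply convexHull_min _ T_convex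
    rintro x hx
    simp only [Set.mem_insert_iff, Set.mem_singleton_iff] at hx
    rcases hx with rfl | rfl | rfl <;> refine ⟨?_, ?_, ?_⟩ <;> simp <;> norm_num

lemma T_eq : T = convexHull ℝ ((fun v i => ((v i : ℚ) : ℝ)) '' (verts : Set (Fin 2 → ℚ))) := by
  have himg : ((fun (v : Fin 2 → ℚ) i => ((v i : ℚ) : ℝ)) '' (verts : Set (Fin 2 → ℚ)))
      = {![-2, 0], ![2, 0], ![0, 1/2]} := by
    simp only [verts, Finset.coe_insert, Finset.coe_singleton, Set.image_insert_eq,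
      Set.image_singleton]
    congr 1
    · ext i; fin_cases i <;> simp
    · congr 1
      · ext i; fin_cases i <;> simp
      · congr 1
        ext i; fin_cases i <;> simp
  rw [himg, T_eq', P0]

/-- The open triangle. -/
def T' : Set (Fin 2 → ℝ) := {x | 0 < x 1 ∧ x 0 + 4 * x 1 < 2 ∧ -x 0 + 4 * x 1 < 2}

lemma T'_open : IsOpen T' := by
  have h1 : Continuous fun x : Fin 2 → ℝ => x 1 := continuous_apply 1
  have h0 : Continuous fun x : Fin 2 → ℝ => x 0 := continuous_apply 0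
  have e1 : IsOpen {x : Fin 2 → ℝ | 0 < x 1} := isOpen_lt continuous_const h1
  have e2 : IsOpen {x : Fin 2 → ℝ | x 0 + 4 * x 1 < 2} :=
    isOpen_lt (h0.add (continuous_const.mul h1)) continuous_const
  have e3 : IsOpen {x : Fin 2 → ℝ | -x 0 + 4 * x 1 < 2} :=
    isOpen_lt (h0.neg.add (continuous_const.mul h1)) continuous_const
  exact e1.inter (e2.inter e3)

lemma T'_sub : T' ⊆ T := fun _ ⟨h1, h2, h3⟩ => ⟨h1.le, h2.le, h3.le⟩

lemma T'_nonempty : T'.Nonempty := ⟨![0, 1/4], by simp [T']⟩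

lemma interior_T : interior T = T' := by
  apply Set.Subset.antisymm
  · intro x hx
    have hx' : T ∈ nhds x := mem_interior_iff_mem_nhds.1 hx
    rw [Metric.mem_nhds_iff] at hx'
    obtain ⟨ε, hε, hb⟩ := hx'
    have mem : ∀ a b : ℝ, |a| < ε → |b| < ε → ![x 0 + a, x 1 + b] ∈ T := by
      intro a b ha hb'
      apply hb
      rw [Metric.mem_ball, dist_pi_lt_iff hε]
      intro i
      fin_cases i
      · simpa [Real.dist_eq] using ha
      · simpa [Real.dist_eq] using hb'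
    have e2 : |ε / 2| < ε := by rw [abs_of_pos (by linarith)]; linarith
    have e2' : |-(ε / 2)| < ε := by rw [abs_neg]; exact e2
    have e0 : |(0 : ℝ)| < ε := by simpa using hε
    obtain ⟨a1, -, -⟩ := mem 0 (-(ε / 2)) e0 e2'
    obtain ⟨-, a2, a3⟩ := mem 0 (ε / 2) e0 e2
    simp at a1 a2 a3
    exact ⟨by linarith, by linarith, by linarith⟩
  · exact interior_maximal T'_sub T'_open

lemma span_T : affineSpan ℝ T = ⊤ := by
  rw [← T_convex.interior_nonempty_iff_affineSpan_eq_top, interior_T]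
  exact T'_nonempty

lemma intrinsicInterior_T : intrinsicInterior ℝ T = T' := by
  rw [← interior_T]
  apply Set.Subset.antisymm
  · apply interior_maximal intrinsicInterior_subset
    unfold intrinsicInterior
    have : IsOpen ((affineSpan ℝ T : AffineSubspace ℝ (Fin 2 → ℝ)) : Set (Fin 2 → ℝ)) := by
      rw [span_T]; simp
    exact this.isOpenMap_subtype_val _ isOpen_interior
  · exact interior_subset_intrinsicInterior

lemma dim_T : dim T = 2 := by
  unfold dim
  rw [← direction_affineSpan, span_T, AffineSubspace.direction_top, finrank_top]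
  simp

lemma insideOut : IsInsideOut T {h0} := by
  refine ⟨⟨verts, T_eq⟩, by rw [dim_T]; norm_num, Set.finite_singleton _, ?_, ?_, ?_⟩
  · rintro h rfl
    refine ⟨![1, 0], 0, ?_, ?_⟩
    · intro h
      have := congrFun h 0
      simp at this
    · ext x
      simp [h0, Fin.sum_univ_two]
  · rintro h rfl hsub
    have : ![1, 0] ∈ T := by simp [T]; norm_num
    have := hsub this
    simp [h0] at this
  · intro S hS hne _
    have hS' : S = {h0} := (Set.subset_singleton_iff_eq.1 hS).resolve_left hne.ne_empty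
    subst hS'
    rw [intrinsicInterior_T, Set.sInter_singleton]
    exact ⟨![0, 1/4], by simp [T'], by simp [h0]⟩

/-! ### Counting -/

/-- Number of rows. -/
def rows (t : ℕ) : ℕ := (t - 1) / 2

/-- The integer points of the interior of `t T`, by rows. -/
noncomputable def W (t : ℕ) : Finset (Σ _ : ℕ, ℤ) :=
  (Finset.range (rows t)).sigma fun i =>
    Finset.Ioo (4 * ((i : ℤ) + 1) - 2 * t) (2 * t - 4 * ((i : ℤ) + 1))

/-- The same without the points on the axis. -/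
noncomputable def W₀ (t : ℕ) : Finset (Σ _ : ℕ, ℤ) :=
  (Finset.range (rows t)).sigma fun i =>
    (Finset.Ioo (4 * ((i : ℤ) + 1) - 2 * t) (2 * t - 4 * ((i : ℤ) + 1))).erase 0

/-- The point of the plane with given integer coordinates. -/
noncomputable def φ (t : ℕ) (p : Σ _ : ℕ, ℤ) : Fin 2 → ℝ :=
  ![(p.2 : ℝ) / t, ((p.1 : ℝ) + 1) / t]

lemma φ_inj {t : ℕ} (ht : 1 ≤ t) : Function.Injective (φ t) := by
  rintro ⟨i, a⟩ ⟨j, b⟩ h
  have ht' : (t : ℝ) ≠ 0 := by positivity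
  have h0 := congrFun h 0
  have h1 := congrFun h 1
  simp only [φ, Matrix.cons_val_zero, Matrix.cons_val_one] at h0 h1
  rw [div_left_inj' ht'] at h0 h1
  have e1 : a = b := by exact_mod_cast h0
  have e2 : i = j := by
    have : (i : ℝ) = j := by linarith
    exact_mod_cast this
  subst e1; subst e2; rfl

lemma mem_rows {t : ℕ} {i : ℕ} {a : ℤ} (_ : 1 ≤ t) :
    (⟨i, a⟩ : Σ _ : ℕ, ℤ) ∈ W t ↔ (a + 4 * ((i : ℤ) + 1) < 2 * t ∧ -a + 4 * ((i : ℤ) + 1) < 2 * t) := by
  simp only [W, rows, Finset.mem_sigma, Finset.mem_range, Finset.mem_Ioo]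
  constructor
  · rintro ⟨_, h2, h3⟩
    constructor <;> linarith
  · rintro ⟨h1, h2⟩
    refine ⟨?_, by linarith, by linarith⟩
    omega

lemma set_eq {t : ℕ} (ht : 1 ≤ t) : intrinsicInterior ℝ T ∩ grid 2 t = φ t '' (W t : Set (Σ _ : ℕ, ℤ)) := by
  rw [intrinsicInterior_T]
  have htp : (0 : ℝ) < t := by positivity
  ext x
  constructor
  · rintro ⟨⟨h1, h2, h3⟩, hg⟩
    obtain ⟨a, ha⟩ := hg 0
    obtain ⟨b, hb⟩ := hg 1
    rw [ha, hb] at h2 h3
    rw [hb] at h1
    have hbpos : 0 < b := by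
      have : (0 : ℝ) < b := by
        rcases (div_pos_iff.1 h1) with h | h
        · exact h.1
        · linarith [h.2]
      exact_mod_cast this
    obtain ⟨i, hi⟩ := Int.eq_ofNat_of_zero_le (show 0 ≤ b - 1 by omega)
    have hb' : b = (i : ℤ) + 1 := by
      have : b - 1 = (i : ℤ) := hi
      omega
    subst hb'
    refine ⟨⟨i, a⟩, ?_, ?_⟩
    · rw [Finset.mem_coe, mem_rows ht]
      constructor
      · have : (a : ℝ) + 4 * (((i : ℤ) + 1 : ℤ) : ℝ) < 2 * t := by
          have e : (a : ℝ) / t + 4 * ((((i : ℤ) + 1 : ℤ) : ℝ) / t)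
              = ((a : ℝ) + 4 * (((i : ℤ) + 1 : ℤ) : ℝ)) / t := by ring
          rw [e, div_lt_iff₀ htp] at h2
          exact h2
        exact_mod_cast this
      · have : -(a : ℝ) + 4 * (((i : ℤ) + 1 : ℤ) : ℝ) < 2 * t := by
          have e : -((a : ℝ) / t) + 4 * ((((i : ℤ) + 1 : ℤ) : ℝ) / t)
              = (-(a : ℝ) + 4 * (((i : ℤ) + 1 : ℤ) : ℝ)) / t := by ring
          rw [e, div_lt_iff₀ htp] at h3
          exact h3
        exact_mod_cast this
    · ext k
      fin_cases k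
      · simp [φ, ha]
      · simp [φ, hb]
  · rintro ⟨⟨i, a⟩, hm, rfl⟩
    rw [Finset.mem_coe, mem_rows ht] at hm
    obtain ⟨m1, m2⟩ := hm
    have m1' : (a : ℝ) + 4 * ((i : ℝ) + 1) < 2 * t := by exact_mod_cast m1
    have m2' : -(a : ℝ) + 4 * ((i : ℝ) + 1) < 2 * t := by exact_mod_cast m2
    refine ⟨⟨?_, ?_, ?_⟩, ?_⟩
    · simp only [φ, Matrix.cons_val_one, Matrix.cons_val_zero]
      positivity
    · simp only [φ, Matrix.cons_val_one, Matrix.cons_val_zero]
      have e : (a : ℝ) / t + 4 * (((i : ℝ) + 1) / t) = ((a : ℝ) + 4 * ((i : ℝ) + 1)) / t := by ring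
      rw [e, div_lt_iff₀ htp]
      exact m1'
    · simp only [φ, Matrix.cons_val_one, Matrix.cons_val_zero]
      have e : -((a : ℝ) / t) + 4 * (((i : ℝ) + 1) / t) = (-(a : ℝ) + 4 * ((i : ℝ) + 1)) / t := by ring
      rw [e, div_lt_iff₀ htp]
      exact m2'
    · intro k
      fin_cases k
      · exact ⟨a, by simp [φ]⟩
      · exact ⟨(i : ℤ) + 1, by simp [φ]⟩

lemma set_eq₀ {t : ℕ} (ht : 1 ≤ t) :
    (intrinsicInterior ℝ T \ ⋃₀ {h0}) ∩ grid 2 t = φ t '' (W₀ t : Set (Σ _ : ℕ, ℤ)) := by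
  have htp : (t : ℝ) ≠ 0 := by positivity
  have e1 : (intrinsicInterior ℝ T \ ⋃₀ {h0}) ∩ grid 2 t
      = (intrinsicInterior ℝ T ∩ grid 2 t) \ h0 := by
    ext x; simp only [Set.sUnion_singleton, Set.mem_inter_iff, Set.mem_sdiff]; tauto
  rw [e1, set_eq ht]
  ext x
  constructor
  · rintro ⟨⟨⟨i, a⟩, hm, rfl⟩, hx⟩
    refine ⟨⟨i, a⟩, ?_, rfl⟩
    rw [Finset.mem_coe] at hm ⊢
    simp only [W, W₀, Finset.mem_sigma, Finset.mem_erase] at hm ⊢
    refine ⟨hm.1, ?_, hm.2⟩
    rintro rfl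
    apply hx
    simp [h0, φ]
  · rintro ⟨⟨i, a⟩, hm, rfl⟩
    rw [Finset.mem_coe] at hm
    simp only [W₀, Finset.mem_sigma, Finset.mem_erase] at hm
    refine ⟨⟨⟨i, a⟩, ?_, rfl⟩, ?_⟩
    · rw [Finset.mem_coe]
      simp only [W, Finset.mem_sigma]
      exact ⟨hm.1, hm.2.2⟩
    · intro hx
      simp only [h0, φ, Set.mem_ofPred_eq, Matrix.cons_val_zero] at hx
      rw [div_eq_zero_iff] at hx
      rcases hx with hx | hx
      · exact hm.2.1 (by exact_mod_cast hx)
      · exact htp hx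

lemma Ew_T {t : ℕ} (ht : 1 ≤ t) : Ew T t = (W t).card := by
  unfold Ew
  rw [set_eq ht, Set.ncard_image_of_injective _ (φ_inj ht), Set.ncard_coe_finset]

lemma Eopen_T {t : ℕ} (ht : 1 ≤ t) : Eopen T {h0} t = (W₀ t).card := by
  unfold Eopen
  rw [set_eq₀ ht, Set.ncard_image_of_injective _ (φ_inj ht), Set.ncard_coe_finset]

lemma row_card {t i : ℕ} (h : i < rows t) :
    ((Finset.Ioo (4 * ((i : ℤ) + 1) - 2 * t) (2 * t - 4 * ((i : ℤ) + 1))).card : ℝ)
      = 4 * t - 8 * i - 9 := by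
  rw [Int.card_Ioo]
  unfold rows at h
  have h1 : 0 ≤ 2 * (t : ℤ) - 4 * ((i : ℤ) + 1) - (4 * ((i : ℤ) + 1) - 2 * t) - 1 := by omega
  have h2 : (((2 * (t : ℤ) - 4 * ((i : ℤ) + 1) - (4 * ((i : ℤ) + 1) - 2 * t) - 1).toNat : ℤ) : ℝ)
      = 4 * t - 8 * i - 9 := by
    rw [Int.toNat_of_nonneg h1]
    push_cast
    ring
  exact_mod_cast h2

lemma row_card₀ {t i : ℕ} (h : i < rows t) :
    (((Finset.Ioo (4 * ((i : ℤ) + 1) - 2 * t) (2 * t - 4 * ((i : ℤ) + 1))).erase 0).card : ℝ)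
      = 4 * t - 8 * i - 10 := by
  have hmem : (0 : ℤ) ∈ Finset.Ioo (4 * ((i : ℤ) + 1) - 2 * t) (2 * t - 4 * ((i : ℤ) + 1)) := by
    unfold rows at h
    rw [Finset.mem_Ioo]
    constructor <;> omega
  rw [Finset.card_erase_of_mem hmem, Nat.cast_sub (Finset.card_pos.2 ⟨0, hmem⟩), row_card h]
  norm_num
  ring

lemma sum_formula (n : ℕ) (A : ℝ) : ∑ i ∈ Finset.range n, (A - 8 * (i : ℝ)) = n * A - 4 * n * (n - 1) := by
  induction n with
  | zero => simp
  | succ n ih =>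
    rw [Finset.sum_range_succ, ih]
    push_cast
    ring

lemma W_card (t : ℕ) : ((W t).card : ℝ) = rows t * (4 * t - 9) - 4 * rows t * (rows t - 1) := by
  rw [W, Finset.card_sigma, ← sum_formula]
  push_cast
  apply Finset.sum_congr rfl
  intro i hi
  rw [row_card (Finset.mem_range.1 hi)]
  ring

lemma W₀_card (t : ℕ) : ((W₀ t).card : ℝ) = rows t * (4 * t - 10) - 4 * rows t * (rows t - 1) := by
  rw [W₀, Finset.card_sigma, ← sum_formula]
  push_cast
  apply Finset.sum_congr rfl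
  intro i hi
  rw [row_card₀ (Finset.mem_range.1 hi)]
  ring

lemma rows_cases {t : ℕ} (ht : 1 ≤ t) :
    (Even (t : ℤ) ∧ (t : ℝ) = 2 * rows t + 2) ∨ (¬ Even (t : ℤ) ∧ (t : ℝ) = 2 * rows t + 1) := by
  rcases Nat.even_or_odd t with h | h
  · left
    refine ⟨by exact_mod_cast h, ?_⟩
    have : t = 2 * rows t + 2 := by
      unfold rows
      obtain ⟨k, hk⟩ := h
      omega
    exact_mod_cast this
  · right
    refine ⟨by rw [Int.not_even_iff_odd]; exact_mod_cast h, ?_⟩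
    have : t = 2 * rows t + 1 := by
      unfold rows
      obtain ⟨k, hk⟩ := h
      omega
    exact_mod_cast this

/-- Coefficients of the open inside-out quasipolynomial: `(t - 1) (t - 2)`. -/
def c : ℕ → ℤ → ℝ
  | 0, _ => 2
  | 1, _ => -3
  | 2, _ => 1
  | _, _ => 0

/-- Coefficients of the weak quasipolynomial: `t ^ 2 - (5/2) t + 1` for even `t` and
`t ^ 2 - (5/2) t + 3/2` for odd `t`. -/
noncomputable def cw : ℕ → ℤ → ℝ
  | 0, s => if Even s then 1 else 3 / 2
  | 1, _ => -(5 / 2)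
  | 2, _ => 1
  | _, _ => 0

lemma isCoeff_open : IsCoeff (Eopen T {h0}) 2 c := by
  constructor
  · intro k _
    refine ⟨1, one_pos, fun t => ?_⟩
    rcases k with _ | _ | _ | k <;> rfl
  · intro t ht
    rw [Eopen_T ht, W₀_card]
    simp only [Finset.sum_range_succ, Finset.sum_range_zero, c]
    rcases rows_cases ht with ⟨_, h⟩ | ⟨_, h⟩ <;> rw [h] <;> ring

lemma isCoeff_weak : IsCoeff (Ew T) 2 cw := by
  constructor
  · intro k _
    refine ⟨2, two_pos, fun t => ?_⟩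
    rcases k with _ | _ | _ | k
    · simp only [cw]
      have : Even (t + ((2 : ℕ) : ℤ)) ↔ Even t := by
        rw [Int.even_add]
        simp
      simp only [this]
    all_goals rfl
  · intro t ht
    rw [Ew_T ht, W_card]
    simp only [Finset.sum_range_succ, Finset.sum_range_zero, cw]
    rcases rows_cases ht with ⟨h', h⟩ | ⟨h', h⟩
    · rw [if_pos h', h]; ring
    · rw [if_neg h', h]; ring

lemma Eopen_formula {t : ℕ} (ht : 1 ≤ t) : (Eopen T {h0} t : ℝ) = ((t : ℝ) - 1) * ((t : ℝ) - 2) := by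
  rw [Eopen_T ht, W₀_card]
  rcases rows_cases ht with ⟨_, h⟩ | ⟨_, h⟩ <;> rw [h] <;> ring

lemma Ew_formula {t : ℕ} (ht : 1 ≤ t) :
    (Ew T t : ℝ) = (t : ℝ) ^ 2 - 5 / 2 * (t : ℝ) + (if Even t then 1 else 3 / 2) := by
  rw [Ew_T ht, W_card]
  rcases rows_cases ht with ⟨h', h⟩ | ⟨h', h⟩
  · rw [if_pos (by exact_mod_cast h'), h]; ring
  · rw [if_neg (by exact_mod_cast h'), h]; ring

/-- The pair `(P0, H0)` is an inside-out polytope of dimension two, whose open quasipolynomial is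
`(t - 1) (t - 2)` and whose weak quasipolynomial is `t ^ 2 - (5/2) t + (1 or 3/2)`. Coefficient
functions exist, and any coefficient functions have minimal periods `p₁ = p^w₁ = p₀ = 1`,
`p^w₀ = 2`, so that `p₁ p^w₀ ∤ p₀ p^w₁`. -/
theorem result :
    IsInsideOut P0 H0 ∧ dim P0 = 2 ∧
    (∀ t : ℕ, 1 ≤ t → (Eopen P0 H0 t : ℝ) = ((t : ℝ) - 1) * ((t : ℝ) - 2)) ∧
    (∀ t : ℕ, 1 ≤ t →
      (Ew P0 t : ℝ) = (t : ℝ) ^ 2 - 5 / 2 * (t : ℝ) + (if Even t then 1 else 3 / 2)) ∧
    (∃ c, IsCoeff (Eopen P0 H0) (dim P0) c) ∧ (∃ cw, IsCoeff (Ew P0) (dim P0) cw) ∧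
    ∀ c cw, IsCoeff (Eopen P0 H0) (dim P0) c → IsCoeff (Ew P0) (dim P0) cw →
      minPeriod (c 1) = 1 ∧ minPeriod (cw 1) = 1 ∧ minPeriod (c 0) = 1 ∧ minPeriod (cw 0) = 2 ∧
      ¬ (minPeriod (c 1) * minPeriod (cw 0) ∣ minPeriod (c 0) * minPeriod (cw 1)) := by
  have hH : H0 = {h0} := rfl
  rw [← T_eq', hH]
  refine ⟨insideOut, dim_T, fun t ht => Eopen_formula ht, fun t ht => Ew_formula ht, ?_, ?_, ?_⟩
  · rw [dim_T]; exact ⟨c, isCoeff_open⟩
  · rw [dim_T]; exact ⟨cw, isCoeff_weak⟩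
  · rw [dim_T]
    intro b bw hb hbw
    have u := coeff_unique hb isCoeff_open
    have uw := coeff_unique hbw isCoeff_weak
    have e1 : b 1 = fun _ => (-3 : ℝ) := funext fun s => (u s).2.1
    have e0 : b 0 = fun _ => (2 : ℝ) := funext fun s => (u s).1
    have f1 : bw 1 = fun _ => (-(5 / 2) : ℝ) := funext fun s => (uw s).2.1
    have f0 : bw 0 = fun s => if Even s then (1 : ℝ) else 3 / 2 := funext fun s => (uw s).1
    have p2 : minPeriod (bw 0) = 2 := by
      rw [f0]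
      apply minPeriod_two
      · intro t
        have : Even (t + 2) ↔ Even t := by
          rw [Int.even_add]
          simp
        simp only [this]
      · norm_num
    have q1 : minPeriod (b 1) = 1 := by rw [e1, minPeriod_const]
    have q2 : minPeriod (bw 1) = 1 := by rw [f1, minPeriod_const]
    have q3 : minPeriod (b 0) = 1 := by rw [e0, minPeriod_const]
    refine ⟨q1, q2, q3, p2, ?_⟩
    rw [q1, q2, q3, p2]
    norm_num

end Pool.Agent.Results.MP_76d2cf_co.Disproof
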