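import Mathlib
import Pool.Agent.Lib.MP_76d2cf_co.Count

set_option autoImplicit false

namespace Pool.Agent.Results.MP_76d2cf_co.UnitCube

open Set Polynomial

/-- A rational convex polytope in `ℝ^d`: the convex hull of finitely many rational points. -/
def IsRationalPolytope {d : ℕ} (P : Set (Fin d → ℝ)) : Prop :=
  ∃ V : Finset (Fin d → ℚ), P = convexHull ℝ ((fun v i => ((v i : ℚ) : ℝ)) '' (V : Set (Fin d → ℚ)))

/-- A rational hyperplane in `ℝ^d`: the solution set of one equation `∑ aᵢ xᵢ = b` with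
rational coefficients, not all `aᵢ` zero. -/
def IsRationalHyperplane {d : ℕ} (h : Set (Fin d → ℝ)) : Prop :=
  ∃ (a : Fin d → ℚ) (b : ℚ), a ≠ 0 ∧ h = {x | ∑ i, ((a i : ℚ) : ℝ) * x i = ((b : ℚ) : ℝ)}

/-- The dimension of a subset of `ℝ^d`. -/
noncomputable def dim {d : ℕ} (P : Set (Fin d → ℝ)) : ℕ := Module.finrank ℝ (vectorSpan ℝ P)

/-- `(P, H)` is an inside-out polytope: `P` is a rational polytope of dimension at least one, `H` is a
finite set of rational hyperplanes, no member of `H` contains `P`, and every nonempty intersection of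
members of `H` that meets `P` also meets the relative interior of `P`. -/
structure IsInsideOut {d : ℕ} (P : Set (Fin d → ℝ)) (H : Set (Set (Fin d → ℝ))) : Prop where
  polytope : IsRationalPolytope P
  dim_pos : 1 ≤ dim P
  finite : H.Finite
  rational : ∀ h ∈ H, IsRationalHyperplane h
  not_subset : ∀ h ∈ H, ¬ P ⊆ h
  transverse : ∀ S ⊆ H, S.Nonempty → (P ∩ ⋂₀ S).Nonempty → (intrinsicInterior ℝ P ∩ ⋂₀ S).Nonempty

/-- The points of `((1/t) ℤ)^d`. -/
def grid (d t : ℕ) : Set (Fin d → ℝ) := {x | ∀ i, ∃ m : ℤ, x i = (m : ℝ) / (t : ℝ)}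

/-- The number of points of `((1/t) ℤ)^d` in the relative interior of `P` outside all members of `H`. -/
noncomputable def Eopen {d : ℕ} (P : Set (Fin d → ℝ)) (H : Set (Set (Fin d → ℝ))) (t : ℕ) : ℕ :=
  Set.ncard ((intrinsicInterior ℝ P \ ⋃₀ H) ∩ grid d t)

/-- The number of points of `((1/t) ℤ)^d` in the relative interior of `P`. -/
noncomputable def Ew {d : ℕ} (P : Set (Fin d → ℝ)) (t : ℕ) : ℕ :=
  Set.ncard (intrinsicInterior ℝ P ∩ grid d t)

/-- `c 0, …, c δ` are the coefficient functions of the quasipolynomial `E` of degree at most `δ`: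
each is periodic on `ℤ`, and `E t = ∑_{k ≤ δ} c k t * t ^ k` for all `t ≥ 1`. -/
structure IsCoeff (E : ℕ → ℕ) (δ : ℕ) (c : ℕ → ℤ → ℝ) : Prop where
  periodic : ∀ k ≤ δ, ∃ p : ℕ, 0 < p ∧ ∀ t : ℤ, c k (t + p) = c k t
  eq : ∀ t : ℕ, 1 ≤ t → (E t : ℝ) = ∑ k ∈ Finset.range (δ + 1), c k (t : ℤ) * (t : ℝ) ^ k

/-- The minimal period of a function on `ℤ`. -/
noncomputable def minPeriod (f : ℤ → ℝ) : ℕ := sInf {p : ℕ | 0 < p ∧ ∀ t : ℤ, f (t + p) = f t}

/-- The unit cube of `ℝ^d`. -/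
def cube (d : ℕ) : Set (Fin d → ℝ) := {x | ∀ i, 0 ≤ x i ∧ x i ≤ 1}

/-- The arrangement in `ℝ^(m+4)` consisting of the single hyperplane `x₀ + 2 x₁ + 2 x₂ = 3 x₃`. -/
def H (m : ℕ) : Set (Set (Fin (m + 4) → ℝ)) := {{x | x 0 + 2 * x 1 + 2 * x 2 = 3 * x 3}}

/-! ### Periods and uniqueness of coefficients -/

lemma minPeriod_eq {f : ℤ → ℝ} {p : ℕ} (hp : 0 < p) (hf : ∀ t : ℤ, f (t + p) = f t)
    (h : ∀ q : ℕ, 0 < q → q < p → ∃ t : ℤ, f (t + q) ≠ f t) : minPeriod f = p := by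
  unfold minPeriod
  have h1 : p ∈ {p : ℕ | 0 < p ∧ ∀ t : ℤ, f (t + p) = f t} := ⟨hp, hf⟩
  have h2 := Nat.sInf_le h1
  obtain ⟨h3, h4⟩ := Nat.sInf_mem ⟨p, h1⟩
  rcases h2.lt_or_eq with h5 | h5
  · obtain ⟨t, ht⟩ := h _ h3 h5
    exact absurd (h4 t) ht
  · exact h5

lemma minPeriod_const (a : ℝ) : minPeriod (fun _ => a) = 1 :=
  minPeriod_eq one_pos (fun _ => rfl) fun q h1 h2 => by omega

lemma periodic_mul (f : ℤ → ℝ) (p : ℕ) (h : ∀ t : ℤ, f (t + p) = f t) (n : ℕ) (t : ℤ) :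
    f (t + (n : ℤ) * p) = f t := by
  induction n with
  | zero => simp
  | succ n ih =>
    have := h (t + (n : ℤ) * p)
    rw [← ih, ← this]
    congr 1
    push_cast
    ring

/-- A common period. -/
lemma common_period {E : ℕ → ℕ} {δ : ℕ} {c : ℕ → ℤ → ℝ} (h : IsCoeff E δ c) :
    ∃ N : ℕ, 0 < N ∧ ∀ k ≤ δ, ∀ (n : ℕ) (t : ℤ), c k (t + (n : ℤ) * N) = c k t := by
  choose! p hp using h.periodic
  refine ⟨∏ k ∈ Finset.range (δ + 1), p k, Finset.prod_pos fun k hk => (hp k (by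
    rw [Finset.mem_range] at hk; omega)).1, fun k hk n t => ?_⟩
  obtain ⟨q, hq⟩ := Finset.dvd_prod_of_mem p (Finset.mem_range.2 (by omega : k < δ + 1))
  rw [hq]
  have := periodic_mul (c k) (p k) (hp k hk).2 (n * q) t
  rw [← this]
  congr 1
  push_cast
  ring

/-- The coefficient functions of a quasipolynomial are unique. -/
lemma coeff_unique {E : ℕ → ℕ} {δ : ℕ} {c c' : ℕ → ℤ → ℝ} (h : IsCoeff E δ c) (h' : IsCoeff E δ c')
    {k : ℕ} (hk : k ≤ δ) (s : ℤ) : c k s = c' k s := by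
  obtain ⟨N, hN, hc⟩ := common_period h
  obtain ⟨N', hN', hc'⟩ := common_period h'
  set Q : ℝ[X] := ∑ k ∈ Finset.range (δ + 1), C (c k s - c' k s) * X ^ k with hQ
  have hroot : ∀ j : ℕ, s.natAbs + 1 ≤ j → Q.IsRoot ((s : ℝ) + j * (N * N')) := by
    intro j hj
    have hpos : 1 ≤ s + (j : ℤ) * (N * N') := by
      have h1 : (s.natAbs : ℤ) + 1 ≤ j := by exact_mod_cast hj
      have h2 : -s ≤ (s.natAbs : ℤ) := by omega
      have h3 : (1 : ℤ) ≤ N * N' := by
        have : 1 ≤ N * N' := Nat.mul_pos hN hN'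
        exact_mod_cast this
      nlinarith
    obtain ⟨n, hn⟩ := Int.eq_ofNat_of_zero_le (show 0 ≤ s + (j : ℤ) * (N * N') by omega)
    have hn1 : 1 ≤ n := by
      rw [hn] at hpos
      exact_mod_cast hpos
    have e1 := h.eq n hn1
    rw [h'.eq n hn1] at e1
    have hnr : (n : ℝ) = (s : ℝ) + j * (N * N') := by
      have : ((s + (j : ℤ) * (N * N') : ℤ) : ℝ) = (n : ℝ) := by rw [hn]; simp
      rw [← this]
      push_cast
      ring
    have hnz : (n : ℤ) = s + (j : ℤ) * (N * N') := by rw [hn]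
    rw [Polynomial.IsRoot.def, hQ, Polynomial.eval_finsetSum, ← hnr]
    have e2 : ∑ k ∈ Finset.range (δ + 1), (c k (n : ℤ) * (n : ℝ) ^ k - c' k (n : ℤ) * (n : ℝ) ^ k) = 0 := by
      rw [Finset.sum_sub_distrib, e1, sub_self]
    rw [← e2]
    refine Finset.sum_congr rfl fun i hi => ?_
    rw [Finset.mem_range] at hi
    have a1 : c i (n : ℤ) = c i s := by
      rw [hnz, ← hc i (by omega) (j * N') s]
      congr 1
      push_cast
      ring
    have a2 : c' i (n : ℤ) = c' i s := by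
      rw [hnz, ← hc' i (by omega) (j * N) s]
      congr 1
      push_cast
      ring
    rw [a1, a2, Polynomial.eval_mul, Polynomial.eval_C, Polynomial.eval_pow, Polynomial.eval_X]
    ring
  have hQ0 : Q = 0 := by
    apply Polynomial.eq_zero_of_infinite_isRoot
    have hinj : Function.Injective fun j : ℕ => (s : ℝ) + ((s.natAbs + 1 + j : ℕ) : ℝ) * (N * N') := by
      intro a b hab
      have h0 : ((N : ℝ) * N') ≠ 0 := by positivity
      have h1 : ((s.natAbs + 1 + a : ℕ) : ℝ) * (N * N') = ((s.natAbs + 1 + b : ℕ) : ℝ) * (N * N') := by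
        simpa using hab
      have h2 := mul_right_cancel₀ h0 h1
      have h3 : s.natAbs + 1 + a = s.natAbs + 1 + b := by exact_mod_cast h2
      omega
    refine (Set.infinite_range_of_injective hinj).mono ?_
    rintro _ ⟨j, rfl⟩
    exact hroot _ (by omega)
  have hcoeff : Q.coeff k = c k s - c' k s := by
    rw [hQ, Polynomial.finsetSum_coeff]
    simp only [Polynomial.coeff_C_mul, Polynomial.coeff_X_pow]
    rw [Finset.sum_eq_single k]
    · simp
    · intro b _ hb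
      rw [if_neg (Ne.symm hb), mul_zero]
    · intro hk'
      rw [Finset.mem_range] at hk'
      omega
  rw [hQ0, Polynomial.coeff_zero] at hcoeff
  linarith

/-! ### The cube -/

lemma cube_eq_pi (d : ℕ) : cube d = Set.univ.pi fun _ : Fin d => Set.Icc (0 : ℝ) 1 := by
  ext x
  simp only [cube, Set.mem_ofPred_eq, Set.mem_pi, Set.mem_univ, true_imp_iff, Set.mem_Icc]

/-- The open cube. -/
def cube' (d : ℕ) : Set (Fin d → ℝ) := {x | ∀ i, 0 < x i ∧ x i < 1}

lemma interior_cube (d : ℕ) : interior (cube d) = cube' d := by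
  rw [cube_eq_pi, interior_pi_set Set.finite_univ]
  ext x
  simp [cube', Set.mem_pi, interior_Icc]

lemma cube_convex (d : ℕ) : Convex ℝ (cube d) := by
  rw [cube_eq_pi]
  exact convex_pi fun _ _ => convex_Icc _ _

lemma span_cube (d : ℕ) : affineSpan ℝ (cube d) = ⊤ := by
  rw [← (cube_convex d).interior_nonempty_iff_affineSpan_eq_top, interior_cube]
  exact ⟨fun _ => 1 / 2, fun _ => by norm_num⟩

lemma intrinsicInterior_cube (d : ℕ) : intrinsicInterior ℝ (cube d) = cube' d := by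
  rw [← interior_cube]
  apply Set.Subset.antisymm
  · apply interior_maximal intrinsicInterior_subset
    unfold intrinsicInterior
    have : IsOpen ((affineSpan ℝ (cube d) : AffineSubspace ℝ (Fin d → ℝ)) : Set (Fin d → ℝ)) := by
      rw [span_cube]; simp
    exact this.isOpenMap_subtype_val _ isOpen_interior
  · exact interior_subset_intrinsicInterior

lemma dim_cube (d : ℕ) : dim (cube d) = d := by
  unfold dim
  rw [← direction_affineSpan, span_cube, AffineSubspace.direction_top, finrank_top]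
  simp

lemma cube_polytope (d : ℕ) : IsRationalPolytope (cube d) := by
  refine ⟨Fintype.piFinset fun _ => {0, 1}, ?_⟩
  have h : (fun (v : Fin d → ℚ) i => ((v i : ℚ) : ℝ)) ''
      ((Fintype.piFinset fun _ : Fin d => ({0, 1} : Finset ℚ) : Finset (Fin d → ℚ)) : Set (Fin d → ℚ)) =
      Set.univ.pi fun _ : Fin d => ({0, 1} : Set ℝ) := by
    ext x
    simp only [Set.mem_image, Finset.mem_coe, Fintype.mem_piFinset, Finset.mem_insert,
      Finset.mem_singleton, Set.mem_pi, Set.mem_univ, true_imp_iff, Set.mem_insert_iff,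
      Set.mem_singleton_iff]
    constructor
    · rintro ⟨v, hv, rfl⟩ i
      rcases hv i with h | h <;> simp [h]
    · intro hx
      refine ⟨fun i => if x i = 0 then 0 else 1, fun i => ?_, ?_⟩
      · by_cases h : x i = 0 <;> simp [h]
      · funext i
        rcases hx i with h | h <;> simp [h]
  rw [h, convexHull_pi, cube_eq_pi]
  congr 1
  funext i
  rw [convexHull_pair, segment_eq_Icc zero_le_one]

/-- The hyperplane. -/
def h0 (m : ℕ) : Set (Fin (m + 4) → ℝ) := {x | x 0 + 2 * x 1 + 2 * x 2 = 3 * x 3}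

lemma ne01 (m : ℕ) : (0 : Fin (m + 4)) ≠ 1 ∧ (0 : Fin (m + 4)) ≠ 2 ∧ (0 : Fin (m + 4)) ≠ 3 ∧
    (1 : Fin (m + 4)) ≠ 2 ∧ (1 : Fin (m + 4)) ≠ 3 ∧ (2 : Fin (m + 4)) ≠ 3 := by
  have v0 : ((0 : Fin (m + 4)) : ℕ) = 0 := Nat.mod_eq_of_lt (by omega : 0 < m + 4)
  have v1 : ((1 : Fin (m + 4)) : ℕ) = 1 := Nat.mod_eq_of_lt (by omega : 1 < m + 4)
  have v2 : ((2 : Fin (m + 4)) : ℕ) = 2 := Nat.mod_eq_of_lt (by omega : 2 < m + 4)
  have v3 : ((3 : Fin (m + 4)) : ℕ) = 3 := Nat.mod_eq_of_lt (by omega : 3 < m + 4)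
  refine ⟨?_, ?_, ?_, ?_, ?_, ?_⟩ <;> intro h <;> have := congrArg Fin.val h <;> omega

lemma h0_rational (m : ℕ) : IsRationalHyperplane (h0 m) := by
  obtain ⟨n01, n02, n03, n12, n13, n23⟩ := ne01 m
  refine ⟨Pi.single 0 1 + Pi.single 1 2 + Pi.single 2 2 + Pi.single 3 (-3), 0, ?_, ?_⟩
  · intro h
    have := congrFun h 0
    simp [n01, n02, n03] at this
  · have key : ∀ x : Fin (m + 4) → ℝ, ∑ i, ((((Pi.single 0 1 + Pi.single 1 2 + Pi.single 2 2 +
        Pi.single 3 (-3) : Fin (m + 4) → ℚ) i : ℚ)) : ℝ) * x i =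
        x 0 + 2 * x 1 + 2 * x 2 - 3 * x 3 := by
      intro x
      have e : ∀ i : Fin (m + 4), ((((Pi.single 0 1 + Pi.single 1 2 + Pi.single 2 2 +
          Pi.single 3 (-3) : Fin (m + 4) → ℚ) i : ℚ)) : ℝ) * x i =
          (if i = 0 then x 0 else 0) + (if i = 1 then 2 * x 1 else 0) +
          (if i = 2 then 2 * x 2 else 0) + (if i = 3 then -3 * x 3 else 0) := by
        intro i
        simp only [Pi.add_apply, Pi.single_apply]
        push_cast
        rw [add_mul, add_mul, add_mul]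
        congr 1
        · congr 1
          · congr 1
            · split_ifs with h <;> simp [h]
            · split_ifs with h <;> simp [h]
          · split_ifs with h <;> simp [h]
        · split_ifs with h <;> simp [h]
      simp only [e, Finset.sum_add_distrib, Finset.sum_ite_eq', Finset.mem_univ, if_true]
      ring
    ext x
    rw [Set.mem_ofPred_eq, key]
    show x 0 + 2 * x 1 + 2 * x 2 = 3 * x 3 ↔ _
    push_cast
    constructor <;> intro h <;> linarith

lemma insideOut (m : ℕ) : IsInsideOut (cube (m + 4)) {h0 m} := by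
  obtain ⟨n01, n02, n03, n12, n13, n23⟩ := ne01 m
  refine ⟨cube_polytope _, by rw [dim_cube]; omega, Set.finite_singleton _, ?_, ?_, ?_⟩
  · rintro h rfl
    exact h0_rational m
  · rintro h rfl hsub
    have : (fun _ => 1 : Fin (m + 4) → ℝ) ∈ cube (m + 4) := fun _ => by norm_num
    have := hsub this
    simp only [h0, Set.mem_ofPred_eq] at this
    norm_num at this
  · intro S hS hne _
    have hS' : S = {h0 m} := (Set.subset_singleton_iff_eq.1 hS).resolve_left hne.ne_empty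
    subst hS'
    rw [intrinsicInterior_cube, Set.sInter_singleton]
    refine ⟨fun i => if i = 3 then 1 / 2 else 3 / 10, fun i => ?_, ?_⟩
    · by_cases h : i = 3 <;> simp only [h, if_true, if_false] <;> norm_num
    · show (if (0 : Fin (m + 4)) = 3 then (1 / 2 : ℝ) else 3 / 10) +
        2 * (if (1 : Fin (m + 4)) = 3 then (1 / 2 : ℝ) else 3 / 10) +
        2 * (if (2 : Fin (m + 4)) = 3 then (1 / 2 : ℝ) else 3 / 10) =
        3 * (if (3 : Fin (m + 4)) = 3 then (1 / 2 : ℝ) else 3 / 10)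
      rw [if_neg n03, if_neg n13, if_neg n23, if_pos rfl]
      norm_num

/-! ### Counting -/

open Pool.Agent.Lib.MP_76d2cf_co in
lemma grid_eq {d t : ℕ} (ht : 1 ≤ t) : intrinsicInterior ℝ (cube d) ∩ grid d t =
    (fun (n : Fin d → ℤ) i => (n i : ℝ) / t) '' (Cb d t : Set (Fin d → ℤ)) := by
  rw [intrinsicInterior_cube]
  have htp : (0 : ℝ) < t := by positivity
  ext x
  constructor
  · rintro ⟨h1, h2⟩
    choose n hn using h2
    refine ⟨n, ?_, funext fun i => (hn i).symm⟩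
    rw [Finset.mem_coe, mem_Cb]
    intro i
    obtain ⟨a, b⟩ := h1 i
    rw [hn i] at a b
    rw [div_pos_iff_of_pos_right htp] at a
    rw [div_lt_one htp] at b
    exact ⟨by exact_mod_cast a, by exact_mod_cast b⟩
  · rintro ⟨n, hn, rfl⟩
    rw [Finset.mem_coe, mem_Cb] at hn
    refine ⟨fun i => ?_, fun i => ⟨n i, rfl⟩⟩
    obtain ⟨a, b⟩ := hn i
    have a' : (0 : ℝ) < n i := by exact_mod_cast a
    have b' : (n i : ℝ) < t := by exact_mod_cast b
    exact ⟨div_pos a' htp, (div_lt_one htp).2 b'⟩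

lemma scale_inj {d t : ℕ} (ht : 1 ≤ t) :
    Function.Injective (fun (n : Fin d → ℤ) (i : Fin d) => (n i : ℝ) / t) := by
  intro a b h
  have ht' : (t : ℝ) ≠ 0 := by positivity
  funext i
  have := congrFun h i
  simp only [div_left_inj' ht'] at this
  exact_mod_cast this

open Pool.Agent.Lib.MP_76d2cf_co in
lemma Ew_cube {d t : ℕ} (ht : 1 ≤ t) : (Ew (cube d) t : ℝ) = ((t : ℝ) - 1) ^ d := by
  unfold Ew
  rw [grid_eq ht, Set.ncard_image_of_injective _ (scale_inj ht), Set.ncard_coe_finset, Cb_card d ht]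

open Pool.Agent.Lib.MP_76d2cf_co in
lemma open_eq {m t : ℕ} (ht : 1 ≤ t) :
    (intrinsicInterior ℝ (cube (m + 4)) \ ⋃₀ {h0 m}) ∩ grid (m + 4) t =
    (fun (n : Fin (m + 4) → ℤ) i => (n i : ℝ) / t) ''
      ((Cb (m + 4) t \ Sm m t : Finset (Fin (m + 4) → ℤ)) : Set (Fin (m + 4) → ℤ)) := by
  have ht' : (t : ℝ) ≠ 0 := by positivity
  have e1 : (intrinsicInterior ℝ (cube (m + 4)) \ ⋃₀ {h0 m}) ∩ grid (m + 4) t
      = (intrinsicInterior ℝ (cube (m + 4)) ∩ grid (m + 4) t) \ h0 m := by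
    ext x; simp only [Set.sUnion_singleton, Set.mem_inter_iff, Set.mem_sdiff]; tauto
  have e2 : ∀ n : Fin (m + 4) → ℤ, (fun i => (n i : ℝ) / t) ∈ h0 m ↔
      n 0 + 2 * n 1 + 2 * n 2 = 3 * n 3 := by
    intro n
    show (n 0 : ℝ) / t + 2 * ((n 1 : ℝ) / t) + 2 * ((n 2 : ℝ) / t) = 3 * ((n 3 : ℝ) / t) ↔ _
    rw [← @Int.cast_inj ℝ]
    push_cast
    constructor
    · intro h
      field_simp at h
      linarith
    · intro h
      field_simp
      linarith
  rw [e1, grid_eq ht]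
  ext x
  constructor
  · rintro ⟨⟨n, hn, rfl⟩, hx⟩
    refine ⟨n, ?_, rfl⟩
    rw [Finset.mem_coe] at hn
    rw [Finset.mem_coe, Finset.mem_sdiff, Sm, Finset.mem_filter]
    exact ⟨hn, fun h => hx ((e2 n).2 h.2)⟩
  · rintro ⟨n, hn, rfl⟩
    rw [Finset.mem_coe, Finset.mem_sdiff, Sm, Finset.mem_filter] at hn
    exact ⟨⟨n, hn.1, rfl⟩, fun h => hn.2 ⟨hn.1, (e2 n).1 h⟩⟩

open Pool.Agent.Lib.MP_76d2cf_co in
lemma Eopen_cube {m t : ℕ} (ht : 1 ≤ t) : (Eopen (cube (m + 4)) {h0 m} t : ℝ) =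
    ((t : ℝ) - 1) ^ m * (((t : ℝ) - 1) ^ 4 -
      (17 / 72 * (t : ℝ) ^ 3 - 5 / 6 * (t : ℝ) ^ 2 + b1 t * t + b0 t)) := by
  unfold Eopen
  have hsub : Sm m (t : ℤ) ⊆ Cb (m + 4) (t : ℤ) := Finset.filter_subset _ _
  rw [open_eq ht, Set.ncard_image_of_injective _ (scale_inj ht), Set.ncard_coe_finset,
    Finset.card_sdiff_of_subset hsub, Nat.cast_sub (Finset.card_le_card hsub), Cb_card _ ht, Sm_card]
  push_cast
  rw [S4_card ht, Cb_card _ ht]
  ring

/-! ### Coefficients -/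

open Pool.Agent.Lib.MP_76d2cf_co in
/-- The polynomial of the residue class of `s`. -/
noncomputable def R (m : ℕ) (s : ℤ) : ℝ[X] :=
  (X - C 1) ^ m * ((X - C 1) ^ 4 - (C (17 / 72) * X ^ 3 - C (5 / 6) * X ^ 2 + C (b1 s) * X + C (b0 s)))

open Pool.Agent.Lib.MP_76d2cf_co in
lemma b1_per (s : ℤ) : b1 (s + 2) = b1 s := by
  unfold b1
  have : (s + 2) % 2 = s % 2 := by omega
  rw [this]

open Pool.Agent.Lib.MP_76d2cf_co in
lemma b0_per (s : ℤ) : b0 (s + 3) = b0 s := by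
  unfold b0
  have : (s + 3) % 3 = s % 3 := by omega
  rw [this]

open Pool.Agent.Lib.MP_76d2cf_co in
lemma b1_per6 (s : ℤ) : b1 (s + 6) = b1 s := by
  unfold b1
  have : (s + 6) % 2 = s % 2 := by omega
  rw [this]

open Pool.Agent.Lib.MP_76d2cf_co in
lemma b0_per6 (s : ℤ) : b0 (s + 6) = b0 s := by
  unfold b0
  have : (s + 6) % 3 = s % 3 := by omega
  rw [this]

lemma natDegree_sub_one_pow (n : ℕ) : ((X - C 1 : ℝ[X]) ^ n).natDegree ≤ n := by
  have h := Polynomial.natDegree_pow_le (p := (X - C 1 : ℝ[X])) (n := n)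
  rwa [Polynomial.natDegree_X_sub_C, mul_one] at h

lemma R_natDegree (m : ℕ) (s : ℤ) : (R m s).natDegree < m + 4 + 1 := by
  unfold R
  have h1 := natDegree_sub_one_pow m
  have h2 := natDegree_sub_one_pow 4
  refine lt_of_le_of_lt Polynomial.natDegree_mul_le ?_
  have h3 : (((X : ℝ[X]) - C 1) ^ 4 - (C (17 / 72) * X ^ 3 - C (5 / 6) * X ^ 2 +
      C (Pool.Agent.Lib.MP_76d2cf_co.b1 s) * X + C (Pool.Agent.Lib.MP_76d2cf_co.b0 s))).natDegree ≤ 4 := by
    refine (Polynomial.natDegree_sub_le _ _).trans (max_le h2 ?_)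
    compute_degree
    norm_num
  omega

lemma isCoeff_open (m : ℕ) :
    IsCoeff (Eopen (cube (m + 4)) {h0 m}) (m + 4) (fun k s => (R m s).coeff k) := by
  constructor
  · intro k _
    refine ⟨6, by norm_num, fun s => ?_⟩
    have h : R m (s + (6 : ℕ)) = R m s := by
      unfold R
      rw [show (s + ((6 : ℕ) : ℤ)) = s + 6 by norm_num, b1_per6, b0_per6]
    show (R m (s + (6 : ℕ))).coeff k = _
    rw [h]
  · intro t ht
    rw [Eopen_cube ht]
    have h := Polynomial.eval_eq_sum_range' (R_natDegree m (t : ℤ)) (t : ℝ)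
    rw [← h]
    unfold R
    simp only [Polynomial.eval_mul, Polynomial.eval_pow, Polynomial.eval_sub, Polynomial.eval_X,
      Polynomial.eval_C, Polynomial.eval_add]

lemma isCoeff_weak (d : ℕ) :
    IsCoeff (Ew (cube d)) d (fun k _ => ((X - C 1 : ℝ[X]) ^ d).coeff k) := by
  constructor
  · intro k _
    exact ⟨1, one_pos, fun t => rfl⟩
  · intro t ht
    rw [Ew_cube ht]
    have h := Polynomial.eval_eq_sum_range' (Nat.lt_succ_of_le (natDegree_sub_one_pow d)) (t : ℝ)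
    rw [← h]
    simp only [Polynomial.eval_pow, Polynomial.eval_sub, Polynomial.eval_X, Polynomial.eval_C]

lemma pow_coeff_zero (m : ℕ) : ((X - C 1 : ℝ[X]) ^ m).coeff 0 = (-1) ^ m := by
  rw [Polynomial.coeff_zero_eq_eval_zero]
  simp

lemma pow_coeff_one (m : ℕ) : ((X - C 1 : ℝ[X]) ^ m).coeff 1 = -((-1) ^ m * (m : ℝ)) := by
  induction m with
  | zero => simp [Polynomial.coeff_one]
  | succ m ih =>
    rw [pow_succ, Polynomial.mul_coeff_one, ih, pow_coeff_zero]
    simp only [Polynomial.coeff_sub, Polynomial.coeff_X_zero, Polynomial.coeff_C_zero,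
      Polynomial.coeff_X_one, Polynomial.coeff_C_succ]
    push_cast
    ring

open Pool.Agent.Lib.MP_76d2cf_co in
lemma R_coeff_zero (m : ℕ) (s : ℤ) : (R m s).coeff 0 = (-1) ^ m * (1 - b0 s) := by
  rw [Polynomial.coeff_zero_eq_eval_zero]
  unfold R
  simp only [Polynomial.eval_mul, Polynomial.eval_pow, Polynomial.eval_sub, Polynomial.eval_X,
    Polynomial.eval_C, Polynomial.eval_add]
  norm_num

open Pool.Agent.Lib.MP_76d2cf_co in
lemma R_coeff_one (m : ℕ) (s : ℤ) :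
    (R m s).coeff 1 = (-1) ^ m * (-4 - b1 s - (m : ℝ) * (1 - b0 s)) := by
  unfold R
  rw [Polynomial.mul_coeff_one, pow_coeff_zero, pow_coeff_one]
  have e0 : (((X : ℝ[X]) - C 1) ^ 4 - (C (17 / 72) * X ^ 3 - C (5 / 6) * X ^ 2 +
      C (b1 s) * X + C (b0 s))).coeff 0 = 1 - b0 s := by
    rw [Polynomial.coeff_sub, pow_coeff_zero]
    simp [Polynomial.coeff_X_pow]
    norm_num
  have e1 : (((X : ℝ[X]) - C 1) ^ 4 - (C (17 / 72) * X ^ 3 - C (5 / 6) * X ^ 2 +
      C (b1 s) * X + C (b0 s))).coeff 1 = -4 - b1 s := by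
    rw [Polynomial.coeff_sub, pow_coeff_one]
    simp [Polynomial.coeff_X_pow]
    norm_num
  rw [e0, e1]
  ring

lemma sign_ne (m : ℕ) : ((-1 : ℝ) ^ m) ≠ 0 := pow_ne_zero _ (by norm_num)

open Pool.Agent.Lib.MP_76d2cf_co in
lemma per_zero (m : ℕ) : minPeriod (fun s => (R m s).coeff 0) = 3 := by
  have hs := sign_ne m
  have v0 : b0 0 = -1 := by unfold b0; norm_num
  have v1 : b0 1 = -(4 / 9) := by unfold b0; norm_num
  have v2 : b0 2 = -(8 / 9) := by unfold b0; norm_num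
  refine minPeriod_eq (by norm_num) (fun t => ?_) fun q h1 h2 => ⟨0, fun h => ?_⟩
  · show (R m (t + (3 : ℕ))).coeff 0 = (R m t).coeff 0
    rw [R_coeff_zero, R_coeff_zero, show t + ((3 : ℕ) : ℤ) = t + 3 by norm_num, b0_per]
  · have h' : (R m (0 + (q : ℤ))).coeff 0 = (R m 0).coeff 0 := h
    rw [R_coeff_zero, R_coeff_zero] at h'
    have h3 := mul_left_cancel₀ hs h'
    have hq : q = 1 ∨ q = 2 := by omega
    rcases hq with rfl | rfl
    · rw [show (0 : ℤ) + ((1 : ℕ) : ℤ) = 1 by norm_num, v0, v1] at h3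
      norm_num at h3
    · rw [show (0 : ℤ) + ((2 : ℕ) : ℤ) = 2 by norm_num, v0, v2] at h3
      norm_num at h3

open Pool.Agent.Lib.MP_76d2cf_co in
lemma per_one (m : ℕ) : minPeriod (fun s => (R m s).coeff 1) = if m = 0 then 2 else 6 := by
  have hs := sign_ne m
  have v0 : b0 0 = -1 := by unfold b0; norm_num
  have v1 : b0 1 = -(4 / 9) := by unfold b0; norm_num
  have v2 : b0 2 = -(8 / 9) := by unfold b0; norm_num
  have v3 : b0 3 = -1 := by unfold b0; norm_num
  have v4 : b0 4 = -(4 / 9) := by unfold b0; norm_num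
  have v5 : b0 5 = -(8 / 9) := by unfold b0; norm_num
  have w0 : b1 0 = 7 / 6 := by unfold b1; norm_num
  have w1 : b1 1 = 25 / 24 := by unfold b1; norm_num
  have w2 : b1 2 = 7 / 6 := by unfold b1; norm_num
  have w3 : b1 3 = 25 / 24 := by unfold b1; norm_num
  have w4 : b1 4 = 7 / 6 := by unfold b1; norm_num
  have w5 : b1 5 = 25 / 24 := by unfold b1; norm_num
  split_ifs with hm
  · subst hm
    refine minPeriod_eq (by norm_num) (fun t => ?_) fun q h1 h2 => ⟨0, fun h => ?_⟩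
    · show (R 0 (t + (2 : ℕ))).coeff 1 = (R 0 t).coeff 1
      rw [R_coeff_one, R_coeff_one, show t + ((2 : ℕ) : ℤ) = t + 2 by norm_num, b1_per]
      norm_num
    · have h' : (R 0 (0 + (q : ℤ))).coeff 1 = (R 0 0).coeff 1 := h
      rw [R_coeff_one, R_coeff_one] at h'
      have hq : q = 1 := by omega
      subst hq
      rw [show (0 : ℤ) + ((1 : ℕ) : ℤ) = 1 by norm_num, w0, w1] at h'
      norm_num at h'
  · have hm' : (1 : ℝ) ≤ m := by
      have : 1 ≤ m := Nat.one_le_iff_ne_zero.2 hm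
      exact_mod_cast this
    refine minPeriod_eq (by norm_num) (fun t => ?_) fun q h1 h2 => ⟨0, fun h => ?_⟩
    · show (R m (t + (6 : ℕ))).coeff 1 = (R m t).coeff 1
      rw [R_coeff_one, R_coeff_one, show t + ((6 : ℕ) : ℤ) = t + 6 by norm_num, b1_per6, b0_per6]
    · have h' : (R m (0 + (q : ℤ))).coeff 1 = (R m 0).coeff 1 := h
      rw [R_coeff_one, R_coeff_one] at h'
      have h3 := mul_left_cancel₀ hs h'
      have hq : q = 1 ∨ q = 2 ∨ q = 3 ∨ q = 4 ∨ q = 5 := by omega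
      rcases hq with rfl | rfl | rfl | rfl | rfl
      · rw [show (0 : ℤ) + ((1 : ℕ) : ℤ) = 1 by norm_num, w0, w1, v0, v1] at h3
        linarith
      · rw [show (0 : ℤ) + ((2 : ℕ) : ℤ) = 2 by norm_num, w0, w2, v0, v2] at h3
        linarith
      · rw [show (0 : ℤ) + ((3 : ℕ) : ℤ) = 3 by norm_num, w0, w3, v0, v3] at h3
        linarith
      · rw [show (0 : ℤ) + ((4 : ℕ) : ℤ) = 4 by norm_num, w0, w4, v0, v4] at h3
        linarith
      · rw [show (0 : ℤ) + ((5 : ℕ) : ℤ) = 5 by norm_num, w0, w5, v0, v5] at h3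
        linarith

/-- For every `d = m + 4 ≥ 4` the unit cube of `ℝ^d` with the single hyperplane
`x₀ + 2 x₁ + 2 x₂ = 3 x₃` is an inside-out polytope with `E^w(t) = (t - 1)^d`, so that all
`p^w_k = 1`, but `p₀ = 3` and `p₁ = 2` (for `d = 4`) or `p₁ = 6` (for `d > 4`); hence
`p₁ p^w₀ ∤ p₀ p^w₁`. -/
theorem result (m : ℕ) :
    IsInsideOut (cube (m + 4)) (H m) ∧ dim (cube (m + 4)) = m + 4 ∧
    (∀ t : ℕ, 1 ≤ t → (Ew (cube (m + 4)) t : ℝ) = ((t : ℝ) - 1) ^ (m + 4)) ∧
    (∀ t : ℕ, 1 ≤ t → (Eopen (cube (m + 4)) (H m) t : ℝ) =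
      ((t : ℝ) - 1) ^ m * (((t : ℝ) - 1) ^ 4 - (17 / 72 * (t : ℝ) ^ 3 - 5 / 6 * (t : ℝ) ^ 2 +
        (if t % 2 = 0 then 7 / 6 else 25 / 24) * (t : ℝ) +
        (if t % 3 = 0 then -1 else if t % 3 = 1 then -(4 / 9) else -(8 / 9))))) ∧
    (∃ c, IsCoeff (Eopen (cube (m + 4)) (H m)) (dim (cube (m + 4))) c) ∧
    (∃ cw, IsCoeff (Ew (cube (m + 4))) (dim (cube (m + 4))) cw) ∧
    ∀ c cw, IsCoeff (Eopen (cube (m + 4)) (H m)) (dim (cube (m + 4))) c →
      IsCoeff (Ew (cube (m + 4))) (dim (cube (m + 4))) cw →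
        (∀ k ≤ m + 4, minPeriod (cw k) = 1) ∧ minPeriod (c 0) = 3 ∧
        minPeriod (c 1) = (if m = 0 then 2 else 6) ∧
        ¬ (minPeriod (c 1) * minPeriod (cw 0) ∣ minPeriod (c 0) * minPeriod (cw 1)) := by
  have hH : H m = {h0 m} := rfl
  rw [hH, dim_cube]
  refine ⟨insideOut m, rfl, fun t ht => Ew_cube ht, fun t ht => ?_, ⟨_, isCoeff_open m⟩,
    ⟨_, isCoeff_weak _⟩, fun c cw hc hcw => ?_⟩
  · rw [Eopen_cube ht]
    have e1 : Pool.Agent.Lib.MP_76d2cf_co.b1 (t : ℤ) = if t % 2 = 0 then 7 / 6 else 25 / 24 := by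
      unfold Pool.Agent.Lib.MP_76d2cf_co.b1
      by_cases h : t % 2 = 0
      · rw [if_pos h, if_pos (by omega)]
      · rw [if_neg h, if_neg (by omega)]
    have e0 : Pool.Agent.Lib.MP_76d2cf_co.b0 (t : ℤ) =
        if t % 3 = 0 then -1 else if t % 3 = 1 then -(4 / 9) else -(8 / 9) := by
      unfold Pool.Agent.Lib.MP_76d2cf_co.b0
      by_cases h : t % 3 = 0
      · rw [if_pos h, if_pos (by omega)]
      · rw [if_neg h, if_neg (by omega)]
        by_cases h' : t % 3 = 1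
        · rw [if_pos h', if_pos (by omega)]
        · rw [if_neg h', if_neg (by omega)]
    rw [e1, e0]
  · have u : ∀ k ≤ m + 4, c k = fun s => (R m s).coeff k := fun k hk =>
      funext fun s => coeff_unique hc (isCoeff_open m) hk s
    have uw : ∀ k ≤ m + 4, cw k = fun _ => ((X - C 1 : ℝ[X]) ^ (m + 4)).coeff k := fun k hk =>
      funext fun s => coeff_unique hcw (isCoeff_weak (m + 4)) hk s
    have pw : ∀ k ≤ m + 4, minPeriod (cw k) = 1 := fun k hk => by
      rw [uw k hk, minPeriod_const]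
    have p0 : minPeriod (c 0) = 3 := by rw [u 0 (by omega)]; exact per_zero m
    have p1 : minPeriod (c 1) = if m = 0 then 2 else 6 := by rw [u 1 (by omega)]; exact per_one m
    refine ⟨pw, p0, p1, ?_⟩
    rw [p0, p1, pw 0 (by omega), pw 1 (by omega)]
    split_ifs <;> norm_num

end Pool.Agent.Results.MP_76d2cf_co.UnitCube
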